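import Mathlib

set_option autoImplicit false

namespace Pool.Agent.Results.MP_907903_al.Yes

open Set Cardinal Pointwise

/-- `A` is `κ`-large: fewer than `κ` translates of `A` cover the group. -/
def Large {G : Type} [AddCommGroup G] (κ : Cardinal) (A : Set G) : Prop :=
  ∃ F : Set G, #F < κ ∧ F + A = Set.univ

/-- The free Abelian group of rank aleph two is partitioned into aleph two sets that are
aleph-one-large. -/
theorem result (ι : Type) (h : #ι = ℵ_ 2) :
    ∃ P : Set (Set (ι →₀ ℤ)), Setoid.IsPartition P ∧ #P = ℵ_ 2 ∧ ∀ A ∈ P, Large ℵ₁ A := by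
  classical
  have : Nonempty ι := mk_ne_zero_iff.1 (h ▸ (aleph_pos 2).ne')
  let c : (ι →₀ ℤ) → ι := fun x => Classical.epsilon fun i => ∀ j ≠ i, |x j| < |x i|
  have k : ∀ i x, ∃ n : ℤ, c (x - Finsupp.single i n) = i := fun i x => by
    obtain ⟨M, hM⟩ := (x.finite_range.image (|·|)).bddAbove
    have m : ∀ j, |x j| ≤ M := fun j => hM ⟨_, ⟨j, rfl⟩, rfl⟩
    have p : ∀ j ≠ i, |(x - Finsupp.single i (x i - (M + 1))) j| <
        |(x - Finsupp.single i (x i - (M + 1))) i| := fun j hj => by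
      simp only [Finsupp.sub_apply, Finsupp.single_eq_same, Finsupp.single_eq_of_ne hj, sub_zero,
        sub_sub_cancel]
      exact (Int.lt_add_one_iff.2 (m j)).trans_le (le_abs_self _)
    refine ⟨x i - (M + 1), by_contra fun n => ?_⟩
    generalize x - Finsupp.single i (x i - (M + 1)) = y at p n
    exact lt_asymm (p _ n) (Classical.epsilon_spec (p := fun i' => ∀ j ≠ i', |y j| < |y i'|)
      ⟨i, p⟩ i (Ne.symm n))
  refine ⟨range fun i => c ⁻¹' {i}, ⟨?_, fun x => ⟨_, ⟨⟨c x, rfl⟩, rfl⟩, ?_⟩⟩, ?_, ?_⟩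
  · rintro ⟨i, hi⟩
    obtain ⟨n, hn⟩ := k i 0
    exact hi.le hn
  · rintro _ ⟨⟨i, rfl⟩, rfl⟩
    rfl
  · rw [mk_range_eq _ fun i j e => ?_, h]
    obtain ⟨n, hn⟩ := k i 0
    exact hn.symm.trans (e.le hn)
  · rintro _ ⟨i, rfl⟩
    refine ⟨range (Finsupp.single i), mk_range_le.trans_lt (by simp), eq_univ_of_forall fun x => ?_⟩
    obtain ⟨n, hn⟩ := k i x
    exact ⟨_, ⟨n, rfl⟩, _, hn, add_sub_cancel _ _⟩

end Pool.Agent.Results.MP_907903_al.Yes
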